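import Pool.Agent.helper82.Disc.Defs

/-! # Random perfect nets: averages over one row (module A1) -/

namespace Pool.Agent.helper82.Disc
open Finset

variable {F : Type} [Field F] [Fintype F] [DecidableEq F]

/-- finite Hoeffding: `X : ι → ℝ`, `|X| ≤ c`, `|lam| * (2c) ≤ 1`. -/
theorem hoeffding_avg {ι : Type} [Fintype ι] [Nonempty ι] (X : ι → ℝ) (c lam : ℝ)
    (hX : ∀ i, |X i| ≤ c) (hl : |lam| * (2 * c) ≤ 1) :
    ∑ i, Real.exp (lam * X i) ≤
      (Fintype.card ι : ℝ) * Real.exp (lam * ((∑ i, X i) / Fintype.card ι) + 4 * lam ^ 2 * c ^ 2) := by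
  set N : ℝ := (Fintype.card ι : ℝ) with hN
  have hN0 : 0 < N := by rw [hN]; exact_mod_cast Fintype.card_pos
  set μ : ℝ := (∑ i, X i) / N with hμ
  have hc : 0 ≤ c := by
    obtain ⟨i⟩ := ‹Nonempty ι›
    exact le_trans (abs_nonneg _) (hX i)
  have hμc : |μ| ≤ c := by
    rw [hμ, abs_div, abs_of_pos hN0, div_le_iff₀ hN0]
    calc |∑ i, X i| ≤ ∑ i, |X i| := Finset.abs_sum_le_sum_abs _ _
      _ ≤ ∑ _i : ι, c := Finset.sum_le_sum fun i _ => hX i
      _ = c * N := by rw [Finset.sum_const, Finset.card_univ, nsmul_eq_mul, hN]; ring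
  have hdev : ∀ i, |X i - μ| ≤ 2 * c := by
    intro i
    calc |X i - μ| ≤ |X i| + |μ| := abs_sub _ _
      _ ≤ 2 * c := by linarith [hX i]
  have hterm : ∀ i, Real.exp (lam * X i) ≤
      Real.exp (lam * μ) * (1 + lam * (X i - μ) + 4 * lam ^ 2 * c ^ 2) := by
    intro i
    have h1 : Real.exp (lam * X i) = Real.exp (lam * μ) * Real.exp (lam * (X i - μ)) := by
      rw [← Real.exp_add]; congr 1; ring
    rw [h1]
    apply mul_le_mul_of_nonneg_left _ (Real.exp_pos _).le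
    have h2 : |lam * (X i - μ)| ≤ 1 := by
      rw [abs_mul]
      exact le_trans (mul_le_mul_of_nonneg_left (hdev i) (abs_nonneg _)) hl
    have h3 := Real.abs_exp_sub_one_sub_id_le h2
    have h4 := (abs_le.mp h3).2
    have h5 : (lam * (X i - μ)) ^ 2 ≤ 4 * lam ^ 2 * c ^ 2 := by
      have h6 : (X i - μ) ^ 2 ≤ (2 * c) ^ 2 := by
        rw [← sq_abs]
        exact pow_le_pow_left₀ (abs_nonneg _) (hdev i) 2
      calc (lam * (X i - μ)) ^ 2 = lam ^ 2 * (X i - μ) ^ 2 := by ring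
        _ ≤ lam ^ 2 * (2 * c) ^ 2 := mul_le_mul_of_nonneg_left h6 (sq_nonneg _)
        _ = 4 * lam ^ 2 * c ^ 2 := by ring
    linarith
  have hsum : ∑ i, (X i - μ) = 0 := by
    rw [Finset.sum_sub_distrib, Finset.sum_const, Finset.card_univ, nsmul_eq_mul, ← hN, hμ]
    field_simp
    ring
  calc ∑ i, Real.exp (lam * X i)
      ≤ ∑ i, Real.exp (lam * μ) * (1 + lam * (X i - μ) + 4 * lam ^ 2 * c ^ 2) :=
        Finset.sum_le_sum fun i _ => hterm i
    _ = Real.exp (lam * μ) * (N * (1 + 4 * lam ^ 2 * c ^ 2)) := by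
        rw [← Finset.mul_sum, Finset.sum_add_distrib, Finset.sum_add_distrib, ← Finset.mul_sum,
          hsum, Finset.sum_const, Finset.sum_const, Finset.card_univ, nsmul_eq_mul, nsmul_eq_mul,
          ← hN]
        ring
    _ ≤ Real.exp (lam * μ) * (N * Real.exp (4 * lam ^ 2 * c ^ 2)) := by
        apply mul_le_mul_of_nonneg_left _ (Real.exp_pos _).le
        apply mul_le_mul_of_nonneg_left _ hN0.le
        have := Real.add_one_le_exp (4 * lam ^ 2 * c ^ 2)
        linarith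
    _ = N * Real.exp (lam * μ + 4 * lam ^ 2 * c ^ 2) := by
        rw [Real.exp_add]; ring

/-! ### sums over units -/

theorem A1_sum_units (g : F → ℝ) : ∑ m : Fˣ, g (m : F) = ∑ z, g z - g 0 := by
  have h1 : ∑ m : Fˣ, g (m : F) = ∑ z : {a : F // a ≠ 0}, g z := by
    apply Fintype.sum_equiv (unitsEquivNeZero (G₀ := F))
    intro m; rfl
  have h2 : ∑ z : {a : F // a ≠ 0}, g z = ∑ z ∈ univ.erase (0 : F), g z := by
    symm
    apply Finset.sum_subtype
    intro x; simp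
  rw [h1, h2, ← Finset.sum_erase_add univ g (Finset.mem_univ (0 : F))]
  ring

theorem A1_sum_units_mul (ψ : F → ℝ) (hψ0 : ∑ y, ψ y = 0) (y δ : F) (hδ : δ ≠ 0) :
    ∑ m : Fˣ, ψ (y + (m : F) * δ) = - ψ y := by
  rw [A1_sum_units (fun z => ψ (y + z * δ))]
  have h1 : ∑ z : F, ψ (y + z * δ) = ∑ z : F, ψ z := by
    apply Fintype.sum_equiv ((Equiv.mulRight₀ δ hδ).trans (Equiv.addLeft y))
    intro z; rfl
  rw [h1, hψ0]
  simp

/-- average of the pending sum -/
noncomputable def rr : (k : ℕ) → (Fin k → Finset F) → ℝ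
  | 0, _ => 0
  | _ + 1, R => ((R 0).card : ℝ) / (Fintype.card Fˣ : ℝ)

theorem A1_card_units : (Fintype.card F : ℝ) = (Fintype.card Fˣ : ℝ) + 1 := by
  have h1 := A1_sum_units (fun _ : F => (1 : ℝ))
  simp only [Finset.sum_const, Finset.card_univ, nsmul_eq_mul, mul_one] at h1
  linarith

theorem A1_card_units_pos : (1 : ℝ) ≤ (Fintype.card Fˣ : ℝ) := by
  exact_mod_cast Fintype.card_pos

theorem A1_card_le (L : Finset F) (hL : (0 : F) ∉ L) : (L.card : ℝ) ≤ (Fintype.card Fˣ : ℝ) := by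
  have h1 : L ⊆ univ.erase (0 : F) := by
    intro x hx
    rw [Finset.mem_erase]
    exact ⟨fun h => hL (h ▸ hx), Finset.mem_univ _⟩
  have h2 := Finset.card_le_card h1
  rw [Finset.card_erase_of_mem (Finset.mem_univ _), Finset.card_univ] at h2
  have h3 : (Fintype.card F : ℝ) = (Fintype.card Fˣ : ℝ) + 1 := A1_card_units
  have h4 : Fintype.card F = Fintype.card Fˣ + 1 := by exact_mod_cast h3
  have h5 : L.card ≤ Fintype.card Fˣ := by omega
  exact_mod_cast h5

theorem A1_rr_mem (k : ℕ) (R : Fin k → Finset F) (hR : ∀ j, (0 : F) ∉ R j) :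
    0 ≤ rr k R ∧ rr k R ≤ 1 := by
  cases k with
  | zero => simp [rr]
  | succ k =>
    have h0 : (1 : ℝ) ≤ (Fintype.card Fˣ : ℝ) := A1_card_units_pos
    have h1 := A1_card_le (R 0) (hR 0)
    refine ⟨by unfold rr; positivity, ?_⟩
    unfold rr
    rw [div_le_one (by linarith)]
    exact h1

theorem A1_sel_mem (s : F) (R : Finset F) (c : ℝ) (hc : c ∈ Set.Icc (0 : ℝ) 1) (a : F) :
    sel s R c a ∈ Set.Icc (0 : ℝ) 1 := by
  unfold sel
  split_ifs
  · exact hc
  · simp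
  · simp

/-- the bound with a pending sum -/
theorem A1_main (ψ : F → ℝ) (hψ : ∀ y, |ψ y| ≤ 1) (hψ0 : ∑ y, ψ y = 0)
    (lam : ℝ) (hlam : |lam| * (2 * (Fintype.card F : ℝ) ^ 2) ≤ 1) :
    ∀ (k : ℕ) (u s : Fin k → F) (L R : Fin k → Finset F) (cL cR : ℝ)
    (_ : ∀ j, (0 : F) ∉ L j) (_ : ∀ j, (0 : F) ∉ R j)
    (_ : cL ∈ Set.Icc (0 : ℝ) 1) (_ : cR ∈ Set.Icc (0 : ℝ) 1) (τ : F)
    (Λ : Finset F) (_ : (0 : F) ∉ Λ) (t : F → F),
    ∑ m : Fin k → Fˣ, Real.exp (lam * (∑ δ ∈ Λ, hs k R m ψ (t δ) +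
        Bt k u s L R cL cR ψ τ m)) ≤
      (Fintype.card Fˣ : ℝ) ^ k *
        Real.exp (lam * (- rr k R * ∑ δ ∈ Λ, ψ (t δ)) + |lam| * (2 * k + 1)
          + 4 * lam ^ 2 * (Fintype.card F : ℝ) ^ 4 * k) := by
  intro k
  induction k with
  | zero =>
    intro u s L R cL cR hL hR hcL hcR τ Λ hΛ t
    simp only [hs, Bt, rr, Finset.sum_const_zero, zero_add, Nat.cast_zero, mul_zero, pow_zero,
      one_mul, neg_zero, zero_mul, add_zero]
    rw [Fintype.sum_unique]
    apply Real.exp_le_exp.mpr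
    have h1 : |cL * cR * ψ τ| ≤ 1 := by
      rw [abs_mul, abs_mul, abs_of_nonneg hcL.1, abs_of_nonneg hcR.1]
      have h2 : cL * cR ≤ 1 := by
        have := mul_le_mul hcL.2 hcR.2 hcR.1 (by norm_num)
        linarith
      have h3 : 0 ≤ cL * cR := mul_nonneg hcL.1 hcR.1
      calc cL * cR * |ψ τ| ≤ 1 * 1 := mul_le_mul h2 (hψ τ) (abs_nonneg _) (by norm_num)
        _ = 1 := one_mul 1
    calc lam * (cL * cR * ψ τ) ≤ |lam * (cL * cR * ψ τ)| := le_abs_self _
      _ = |lam| * |cL * cR * ψ τ| := abs_mul _ _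
      _ ≤ |lam| * 1 := mul_le_mul_of_nonneg_left h1 (abs_nonneg _)
      _ = _ := by ring
  | succ k ih =>
    intro u s L R cL cR hL hR hcL hcR τ Λ hΛ t
    set n : ℝ := (Fintype.card Fˣ : ℝ) with hn
    set b : ℝ := (Fintype.card F : ℝ) with hb
    have hbn : b = n + 1 := A1_card_units
    have hn1 : 1 ≤ n := A1_card_units_pos
    have hLc : ((L 0).card : ℝ) ≤ n := A1_card_le _ (hL 0)
    have hRc : ((R 0).card : ℝ) ≤ n := A1_card_le _ (hR 0)
    have hΛc : (Λ.card : ℝ) ≤ n := A1_card_le _ hΛ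
    have hr := A1_rr_mem k (Fin.tail R) (fun j => hR j.succ)
    set r := rr k (Fin.tail R) with hrdef
    -- the function of the first unit
    set X : Fˣ → ℝ := fun m0 =>
      (∑ δ ∈ Λ, ∑ δ' ∈ R 0, ψ (t δ + (m0 : F) * δ')) +
        ∑ δ ∈ L 0, (sel (s 0) (R 0) cR (u 0 + δ) - r) * ψ (τ + (m0 : F) * (u 0 - s 0 + δ)) with hX
    -- splitting the sum over m
    have hsplit : ∀ g : (Fin (k + 1) → Fˣ) → ℝ,
        ∑ m : Fin (k + 1) → Fˣ, g m = ∑ m0 : Fˣ, ∑ m' : Fin k → Fˣ, g (Fin.cons m0 m') := by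
      intro g
      rw [← Fintype.sum_prod_type']
      apply Fintype.sum_equiv (Fin.consEquiv (fun _ : Fin (k + 1) => Fˣ)).symm
      intro m
      simp [Fin.consEquiv]
    rw [hsplit]
    have hstep : ∀ m0 : Fˣ, ∑ m' : Fin k → Fˣ,
        Real.exp (lam * (∑ δ ∈ Λ, hs (k + 1) R (Fin.cons m0 m') ψ (t δ) +
          Bt (k + 1) u s L R cL cR ψ τ (Fin.cons m0 m'))) ≤
        Real.exp (lam * X m0) * (n ^ k * Real.exp (|lam| * (2 * k + 1)
          + 4 * lam ^ 2 * b ^ 4 * k)) := by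
      intro m0
      have h1 : ∀ m' : Fin k → Fˣ,
          (∑ δ ∈ Λ, hs (k + 1) R (Fin.cons m0 m') ψ (t δ) +
            Bt (k + 1) u s L R cL cR ψ τ (Fin.cons m0 m')) =
          (∑ δ ∈ Λ, ∑ δ' ∈ R 0, ψ (t δ + (m0 : F) * δ') +
            ∑ δ ∈ L 0, sel (s 0) (R 0) cR (u 0 + δ) * ψ (τ + (m0 : F) * (u 0 - s 0 + δ))) +
          (∑ δ ∈ L 0, hs k (Fin.tail R) m' ψ (τ + (m0 : F) * (u 0 - s 0 + δ)) +
            Bt k (Fin.tail u) (Fin.tail s) (Fin.tail L) (Fin.tail R) cL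
              (sel (s 0) (R 0) cR (u 0)) ψ (τ + (m0 : F) * (u 0 - s 0)) m') := by
        intro m'
        simp only [hs, Bt, Fin.cons_zero, Fin.tail_cons, Finset.sum_add_distrib]
        ring
      have h2 := ih (Fin.tail u) (Fin.tail s) (Fin.tail L) (Fin.tail R) cL
        (sel (s 0) (R 0) cR (u 0)) (fun j => hL j.succ) (fun j => hR j.succ) hcL
        (A1_sel_mem _ _ _ hcR _) (τ + (m0 : F) * (u 0 - s 0)) (L 0) (hL 0)
        (fun δ => τ + (m0 : F) * (u 0 - s 0 + δ))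
      simp only [h1]
      have h3 : ∀ m' : Fin k → Fˣ, Real.exp (lam * ((∑ δ ∈ Λ, ∑ δ' ∈ R 0, ψ (t δ + (m0 : F) * δ') +
            ∑ δ ∈ L 0, sel (s 0) (R 0) cR (u 0 + δ) * ψ (τ + (m0 : F) * (u 0 - s 0 + δ))) +
          (∑ δ ∈ L 0, hs k (Fin.tail R) m' ψ (τ + (m0 : F) * (u 0 - s 0 + δ)) +
            Bt k (Fin.tail u) (Fin.tail s) (Fin.tail L) (Fin.tail R) cL
              (sel (s 0) (R 0) cR (u 0)) ψ (τ + (m0 : F) * (u 0 - s 0)) m'))) =
          Real.exp (lam * (∑ δ ∈ Λ, ∑ δ' ∈ R 0, ψ (t δ + (m0 : F) * δ') +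
            ∑ δ ∈ L 0, sel (s 0) (R 0) cR (u 0 + δ) * ψ (τ + (m0 : F) * (u 0 - s 0 + δ)))) *
          Real.exp (lam * (∑ δ ∈ L 0, hs k (Fin.tail R) m' ψ (τ + (m0 : F) * (u 0 - s 0 + δ)) +
            Bt k (Fin.tail u) (Fin.tail s) (Fin.tail L) (Fin.tail R) cL
              (sel (s 0) (R 0) cR (u 0)) ψ (τ + (m0 : F) * (u 0 - s 0)) m')) := by
        intro m'
        rw [← Real.exp_add]; congr 1; ring
      simp only [h3]
      rw [← Finset.mul_sum]
      refine le_trans (mul_le_mul_of_nonneg_left h2 (Real.exp_pos _).le) (le_of_eq ?_)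
      have h4 : X m0 = (∑ δ ∈ Λ, ∑ δ' ∈ R 0, ψ (t δ + (m0 : F) * δ') +
            ∑ δ ∈ L 0, sel (s 0) (R 0) cR (u 0 + δ) * ψ (τ + (m0 : F) * (u 0 - s 0 + δ))) +
            (- r * ∑ δ ∈ L 0, ψ (τ + (m0 : F) * (u 0 - s 0 + δ))) := by
        simp only [hX, sub_mul, Finset.sum_sub_distrib, Finset.mul_sum]
        rw [← Finset.mul_sum, ← Finset.mul_sum]
        ring
      rw [h4, mul_left_comm, ← Real.exp_add, mul_left_comm (Real.exp _) (n ^ k), ← Real.exp_add]
      congr 2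
      ring
    refine le_trans (Finset.sum_le_sum fun m0 _ => hstep m0) ?_
    rw [← Finset.sum_mul]
    -- bound on X
    have hX1 : ∀ m0, |X m0| ≤ b ^ 2 := by
      intro m0
      have h1 : |∑ δ ∈ Λ, ∑ δ' ∈ R 0, ψ (t δ + (m0 : F) * δ')| ≤ n * n := by
        calc |∑ δ ∈ Λ, ∑ δ' ∈ R 0, ψ (t δ + (m0 : F) * δ')|
            ≤ ∑ δ ∈ Λ, |∑ δ' ∈ R 0, ψ (t δ + (m0 : F) * δ')| := Finset.abs_sum_le_sum_abs _ _
          _ ≤ ∑ _δ ∈ Λ, n := by
              apply Finset.sum_le_sum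
              intro δ _
              calc |∑ δ' ∈ R 0, ψ (t δ + (m0 : F) * δ')|
                  ≤ ∑ δ' ∈ R 0, |ψ (t δ + (m0 : F) * δ')| := Finset.abs_sum_le_sum_abs _ _
                _ ≤ ∑ _δ' ∈ R 0, (1 : ℝ) := Finset.sum_le_sum fun _ _ => hψ _
                _ = (R 0).card := by rw [Finset.sum_const, nsmul_eq_mul, mul_one]
                _ ≤ n := hRc
          _ = Λ.card * n := by rw [Finset.sum_const, nsmul_eq_mul]
          _ ≤ n * n := mul_le_mul_of_nonneg_right hΛc (by linarith)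
      have h2 : |∑ δ ∈ L 0, (sel (s 0) (R 0) cR (u 0 + δ) - r) *
          ψ (τ + (m0 : F) * (u 0 - s 0 + δ))| ≤ n := by
        calc |∑ δ ∈ L 0, (sel (s 0) (R 0) cR (u 0 + δ) - r) *
              ψ (τ + (m0 : F) * (u 0 - s 0 + δ))|
            ≤ ∑ δ ∈ L 0, |(sel (s 0) (R 0) cR (u 0 + δ) - r) *
              ψ (τ + (m0 : F) * (u 0 - s 0 + δ))| := Finset.abs_sum_le_sum_abs _ _
          _ ≤ ∑ _δ ∈ L 0, (1 : ℝ) := by
              apply Finset.sum_le_sum
              intro δ _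
              have h3 := A1_sel_mem (s 0) (R 0) cR hcR (u 0 + δ)
              rw [abs_mul]
              have h4 : |sel (s 0) (R 0) cR (u 0 + δ) - r| ≤ 1 := by
                rw [abs_le]; constructor
                · linarith [h3.1, hr.2]
                · linarith [h3.2, hr.1]
              calc _ ≤ (1 : ℝ) * 1 := mul_le_mul h4 (hψ _) (abs_nonneg _) (by norm_num)
                _ = 1 := one_mul 1
          _ = (L 0).card := by rw [Finset.sum_const, nsmul_eq_mul, mul_one]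
          _ ≤ n := hLc
      calc |X m0| ≤ _ + _ := abs_add_le _ _
        _ ≤ n * n + n := add_le_add h1 h2
        _ ≤ b ^ 2 := by rw [hbn]; nlinarith
    have hH := hoeffding_avg X (b ^ 2) lam hX1 hlam
    rw [← hn] at hH
    -- the mean of X
    have hmean : |(∑ m0, X m0) / n - (- rr (k + 1) R * ∑ δ ∈ Λ, ψ (t δ))| ≤ 2 := by
      have h1 : ∑ m0 : Fˣ, ∑ δ ∈ Λ, ∑ δ' ∈ R 0, ψ (t δ + (m0 : F) * δ') =
          - ((R 0).card : ℝ) * ∑ δ ∈ Λ, ψ (t δ) := by
        rw [Finset.sum_comm, Finset.mul_sum]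
        apply Finset.sum_congr rfl
        intro δ _
        rw [Finset.sum_comm]
        have : ∀ δ' ∈ R 0, ∑ m0 : Fˣ, ψ (t δ + (m0 : F) * δ') = - ψ (t δ) := by
          intro δ' hδ'
          apply A1_sum_units_mul ψ hψ0
          rintro rfl
          exact hR 0 hδ'
        rw [Finset.sum_congr rfl this, Finset.sum_const, nsmul_eq_mul]
        ring
      have h2 : ∑ m0 : Fˣ, ∑ δ ∈ L 0, (sel (s 0) (R 0) cR (u 0 + δ) - r) *
            ψ (τ + (m0 : F) * (u 0 - s 0 + δ)) =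
          ∑ δ ∈ L 0, (sel (s 0) (R 0) cR (u 0 + δ) - r) *
            (if u 0 - s 0 + δ = 0 then n * ψ τ else - ψ τ) := by
        rw [Finset.sum_comm]
        apply Finset.sum_congr rfl
        intro δ _
        rw [← Finset.mul_sum]
        congr 1
        split_ifs with h
        · rw [h]
          simp only [mul_zero, add_zero, Finset.sum_const, Finset.card_univ, nsmul_eq_mul]
          rw [hn]
        · exact A1_sum_units_mul ψ hψ0 _ _ h
      have h3 : ∑ m0, X m0 = - ((R 0).card : ℝ) * ∑ δ ∈ Λ, ψ (t δ) +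
          ∑ δ ∈ L 0, (sel (s 0) (R 0) cR (u 0 + δ) - r) *
            (if u 0 - s 0 + δ = 0 then n * ψ τ else - ψ τ) := by
        rw [← h1, ← h2, ← Finset.sum_add_distrib]
      have h4 : (∑ m0, X m0) / n - (- rr (k + 1) R * ∑ δ ∈ Λ, ψ (t δ)) =
          (∑ δ ∈ L 0, (sel (s 0) (R 0) cR (u 0 + δ) - r) *
            (if u 0 - s 0 + δ = 0 then n * ψ τ else - ψ τ)) / n := by
        rw [h3]
        unfold rr
        rw [← hn]
        field_simp
        ring
      rw [h4, abs_div, abs_of_pos (by linarith : (0:ℝ) < n), div_le_iff₀ (by linarith)]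
      have h5 : ∀ δ ∈ L 0, |(sel (s 0) (R 0) cR (u 0 + δ) - r) *
            (if u 0 - s 0 + δ = 0 then n * ψ τ else - ψ τ)| ≤
          (if u 0 - s 0 + δ = 0 then n else 0) + 1 := by
        intro δ _
        have h3 := A1_sel_mem (s 0) (R 0) cR hcR (u 0 + δ)
        have h4 : |sel (s 0) (R 0) cR (u 0 + δ) - r| ≤ 1 := by
          rw [abs_le]; constructor
          · linarith [h3.1, hr.2]
          · linarith [h3.2, hr.1]
        rw [abs_mul]
        split_ifs with h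
        · have h6 : |n * ψ τ| ≤ n := by
            rw [abs_mul, abs_of_pos (by linarith : (0:ℝ) < n)]
            calc n * |ψ τ| ≤ n * 1 := mul_le_mul_of_nonneg_left (hψ τ) (by linarith)
              _ = n := mul_one n
          calc _ ≤ 1 * n := mul_le_mul h4 h6 (abs_nonneg _) (by norm_num)
            _ ≤ n + 1 := by linarith
        · have h6 : |- ψ τ| ≤ 1 := by rw [abs_neg]; exact hψ τ
          calc _ ≤ (1 : ℝ) * 1 := mul_le_mul h4 h6 (abs_nonneg _) (by norm_num)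
            _ ≤ 0 + 1 := by norm_num
      calc _ ≤ ∑ δ ∈ L 0, |(sel (s 0) (R 0) cR (u 0 + δ) - r) *
            (if u 0 - s 0 + δ = 0 then n * ψ τ else - ψ τ)| := Finset.abs_sum_le_sum_abs _ _
        _ ≤ ∑ δ ∈ L 0, ((if u 0 - s 0 + δ = 0 then n else 0) + 1) := Finset.sum_le_sum h5
        _ = (∑ δ ∈ L 0, (if δ = s 0 - u 0 then n else 0)) + (L 0).card := by
            rw [Finset.sum_add_distrib, Finset.sum_const, nsmul_eq_mul, mul_one]
            congr 1
            apply Finset.sum_congr rfl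
            intro δ _
            have : u 0 - s 0 + δ = 0 ↔ δ = s 0 - u 0 := by
              constructor
              · intro h; linear_combination h
              · intro h; linear_combination h
            simp only [this]
        _ ≤ n + n := by
            apply add_le_add _ hLc
            rw [Finset.sum_ite_eq']
            split_ifs
            · exact le_rfl
            · linarith
        _ = 2 * n := by ring
    have hexp : lam * ((∑ m0, X m0) / n) ≤ lam * (- rr (k + 1) R * ∑ δ ∈ Λ, ψ (t δ)) + 2 * |lam| := by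
      have h1 : lam * ((∑ m0, X m0) / n) - lam * (- rr (k + 1) R * ∑ δ ∈ Λ, ψ (t δ)) ≤
          |lam| * 2 := by
        rw [← mul_sub]
        calc _ ≤ |lam * ((∑ m0, X m0) / n - (- rr (k + 1) R * ∑ δ ∈ Λ, ψ (t δ)))| := le_abs_self _
          _ = |lam| * _ := abs_mul _ _
          _ ≤ |lam| * 2 := mul_le_mul_of_nonneg_left hmean (abs_nonneg _)
      linarith
    have hfin : ∑ m0, Real.exp (lam * X m0) ≤
        n * Real.exp (lam * (- rr (k + 1) R * ∑ δ ∈ Λ, ψ (t δ)) + 2 * |lam|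
          + 4 * lam ^ 2 * b ^ 4) := by
      refine le_trans hH ?_
      apply mul_le_mul_of_nonneg_left _ (by linarith)
      apply Real.exp_le_exp.mpr
      have : (b ^ 2) ^ 2 = b ^ 4 := by ring
      rw [this]
      linarith
    refine le_trans (mul_le_mul_of_nonneg_right hfin (by positivity)) (le_of_eq ?_)
    push_cast
    rw [show n * Real.exp (lam * (- rr (k + 1) R * ∑ δ ∈ Λ, ψ (t δ)) + 2 * |lam|
          + 4 * lam ^ 2 * b ^ 4) * (n ^ k * Real.exp (|lam| * (2 * k + 1)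
          + 4 * lam ^ 2 * b ^ 4 * k)) = n ^ (k + 1) * (Real.exp (lam * (- rr (k + 1) R * ∑ δ ∈ Λ, ψ (t δ)) + 2 * |lam|
          + 4 * lam ^ 2 * b ^ 4) * Real.exp (|lam| * (2 * k + 1)
          + 4 * lam ^ 2 * b ^ 4 * k)) by ring, ← Real.exp_add]
    congr 2
    ring

/-- average of `Bt` for fixed `τ`. -/
theorem Bt_avg (k : ℕ) (u s : Fin k → F) (L R : Fin k → Finset F) (cL cR : ℝ)
    (hL : ∀ j, (0 : F) ∉ L j) (hR : ∀ j, (0 : F) ∉ R j)
    (hcL : cL ∈ Set.Icc (0 : ℝ) 1) (hcR : cR ∈ Set.Icc (0 : ℝ) 1)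
    (ψ : F → ℝ) (hψ : ∀ y, |ψ y| ≤ 1) (hψ0 : ∑ y, ψ y = 0)
    (lam : ℝ) (hlam : |lam| * (2 * (Fintype.card F : ℝ) ^ 2) ≤ 1) (τ : F) :
    ∑ m : Fin k → Fˣ, Real.exp (lam * Bt k u s L R cL cR ψ τ m) ≤
      (Fintype.card Fˣ : ℝ) ^ k *
        Real.exp (|lam| * (2 * k + 1) + 4 * lam ^ 2 * (Fintype.card F : ℝ) ^ 4 * k) := by
  have h := A1_main ψ hψ hψ0 lam hlam k u s L R cL cR hL hR hcL hcR τ ∅ (by simp) (fun x => x)
  simpa using h

end Pool.Agent.helper82.Disc
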