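import Pool.Agent.helper82.Disc.Defs

/-! # Random perfect nets: decomposition of the row sum (module B1) -/

namespace Pool.Agent.helper82.Disc
open Finset

variable {F : Type} [Field F] [Fintype F] [DecidableEq F]

omit [Fintype F] in
theorem right_cons (k : ℕ) (s : Fin (k + 1) → F) (R : Fin (k + 1) → Finset F) (c : ℝ)
    (v : Fin (k + 1) → F) :
    right (k + 1) s R c v =
      right k (Fin.tail s) (Fin.tail R) (sel (s 0) (R 0) c (v 0)) (Fin.tail v) := by
  induction k with
  | zero => rfl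
  | succ k ih =>
    have h1 : right (k + 2) s R c v = sel (s (Fin.last (k + 1))) (R (Fin.last (k + 1)))
        (right (k + 1) (Fin.init s) (Fin.init R) c (Fin.init v)) (v (Fin.last (k + 1))) := rfl
    have h2 : right (k + 1) (Fin.tail s) (Fin.tail R) (sel (s 0) (R 0) c (v 0)) (Fin.tail v) =
        sel (Fin.tail s (Fin.last k)) (Fin.tail R (Fin.last k))
          (right k (Fin.init (Fin.tail s)) (Fin.init (Fin.tail R)) (sel (s 0) (R 0) c (v 0))
            (Fin.init (Fin.tail v))) (Fin.tail v (Fin.last k)) := rfl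
    rw [h1, h2, ih]
    rfl

theorem B1_sum_sel (s : F) (R : Finset F) (hR : (0 : F) ∉ R) (c : ℝ) (g : F → ℝ) :
    ∑ a, sel s R c a * g a = c * g s + ∑ δ ∈ R, g (s + δ) := by
  have h1 : ∑ a, sel s R c a * g a = ∑ δ : F, sel s R c (s + δ) * g (s + δ) := by
    symm
    apply Fintype.sum_equiv (Equiv.addLeft s)
    intro δ; rfl
  have h2 : ∀ δ : F, sel s R c (s + δ) * g (s + δ) =
      (if δ = 0 then c * g s else 0) + (if δ ∈ R then g (s + δ) else 0) := by
    intro δ
    unfold sel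
    by_cases hδ : δ = 0
    · subst hδ
      simp [hR]
    · have h3 : s + δ ≠ s := by
        intro h; apply hδ; simpa using h
      rw [if_neg h3, if_neg hδ]
      simp only [add_sub_cancel_left]
      split_ifs <;> ring
  rw [h1, Finset.sum_congr rfl fun δ _ => h2 δ, Finset.sum_add_distrib, Finset.sum_ite_eq',
    if_pos (Finset.mem_univ _), Finset.sum_ite_mem, Finset.univ_inter]

omit [DecidableEq F] in
theorem B1_sum_cons {k : ℕ} (g : (Fin (k + 1) → F) → ℝ) :
    ∑ v : Fin (k + 1) → F, g v = ∑ a : F, ∑ v' : Fin k → F, g (Fin.cons a v') := by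
  rw [← Fintype.sum_prod_type']
  apply Fintype.sum_equiv (Fin.consEquiv (fun _ : Fin (k + 1) => F)).symm
  intro m
  simp [Fin.consEquiv]

omit [Fintype F] [DecidableEq F] in
theorem B1_ydig_cons {k : ℕ} (e : F) (m : Fin (k + 1) → Fˣ) (a : F) (v' : Fin k → F) :
    ydig e m (Fin.cons a v') = ydig (e + (m 0 : F) * a) (Fin.tail m) v' := by
  unfold ydig
  rw [Fin.sum_univ_succ]
  simp only [Fin.cons_zero, Fin.cons_succ, Fin.tail]
  ring

omit [Fintype F] [DecidableEq F] in
theorem B1_ydig_eq {k : ℕ} (e : F) (m : Fin (k + 1) → Fˣ) (s : Fin (k + 1) → F) :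
    ydig e m s = ydig (e + (m 0 : F) * s 0) (Fin.tail m) (Fin.tail s) := by
  rw [← B1_ydig_cons, Fin.cons_self_tail]

omit [Fintype F] [DecidableEq F] in
theorem B1_ydig_add {k : ℕ} (e x : F) (m : Fin k → Fˣ) (v : Fin k → F) :
    ydig (e + x) m v = ydig e m v + x := by
  unfold ydig; ring

theorem B1_sum_free (ψ : F → ℝ) (hψ0 : ∑ y, ψ y = 0) (x : F) (m : Fˣ) :
    ∑ a : F, ψ (x + (m : F) * a) = 0 := by
  have h1 : ∑ a : F, ψ (x + (m : F) * a) = ∑ y : F, ψ y := by
    apply Fintype.sum_equiv ((Equiv.mulLeft₀ (m : F) m.ne_zero).trans (Equiv.addLeft x))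
    intro z; rfl
  rw [h1, hψ0]

/-- sums of right factors -/
theorem B1_right_sum (ψ : F → ℝ) (hψ0 : ∑ y, ψ y = 0) :
    ∀ (k : ℕ) (s : Fin k → F) (R : Fin k → Finset F) (_ : ∀ j, (0 : F) ∉ R j) (c : ℝ)
      (e : F) (m : Fin k → Fˣ),
      ∑ v : Fin k → F, right k s R c v * ψ (ydig e m v) =
        c * ψ (ydig e m s) + hs k R m ψ (ydig e m s) := by
  intro k
  induction k with
  | zero =>
    intro s R hR c e m
    rw [Fintype.sum_unique]
    simp [right, hs, ydig]
  | succ k ih =>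
    intro s R hR c e m
    rw [B1_sum_cons]
    have h1 : ∀ a : F, ∑ v' : Fin k → F, right (k + 1) s R c (Fin.cons a v') *
        ψ (ydig e m (Fin.cons a v')) =
        sel (s 0) (R 0) c a * ψ (ydig (e + (m 0 : F) * a) (Fin.tail m) (Fin.tail s)) +
          hs k (Fin.tail R) (Fin.tail m) ψ (ydig (e + (m 0 : F) * a) (Fin.tail m) (Fin.tail s)) := by
      intro a
      rw [← ih (Fin.tail s) (Fin.tail R) (fun j => hR j.succ) (sel (s 0) (R 0) c a)
        (e + (m 0 : F) * a) (Fin.tail m)]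
      apply Finset.sum_congr rfl
      intro v' _
      rw [right_cons, B1_ydig_cons, Fin.cons_zero, Fin.tail_cons]
    rw [Finset.sum_congr rfl fun a _ => h1 a, Finset.sum_add_distrib]
    have h2 : ∑ a : F, hs k (Fin.tail R) (Fin.tail m) ψ
        (ydig (e + (m 0 : F) * a) (Fin.tail m) (Fin.tail s)) = 0 := by
      cases k with
      | zero => simp [hs]
      | succ k =>
        simp only [hs]
        rw [Finset.sum_comm]
        apply Finset.sum_eq_zero
        intro δ _
        have h3 : ∀ a : F, ydig (e + (m 0 : F) * a) (Fin.tail m) (Fin.tail s) +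
            (Fin.tail m 0 : F) * δ =
            (ydig e (Fin.tail m) (Fin.tail s) + (Fin.tail m 0 : F) * δ) + (m 0 : F) * a := by
          intro a; rw [B1_ydig_add]; ring
        rw [Finset.sum_congr rfl fun a _ => by rw [h3 a]]
        exact B1_sum_free ψ hψ0 _ _
    rw [h2, add_zero, B1_sum_sel (s 0) (R 0) (hR 0) c
      (fun a => ψ (ydig (e + (m 0 : F) * a) (Fin.tail m) (Fin.tail s))), ← B1_ydig_eq]
    congr 1
    simp only [hs]
    apply Finset.sum_congr rfl
    intro δ _
    rw [B1_ydig_eq e m s]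
    congr 1
    rw [mul_add, ← add_assoc, B1_ydig_add]

theorem B1_main (ψ : F → ℝ) (hψ0 : ∑ y, ψ y = 0) :
    ∀ (k : ℕ) (u s : Fin k → F) (L R : Fin k → Finset F) (_ : ∀ j, (0 : F) ∉ L j)
      (_ : ∀ j, (0 : F) ∉ R j) (cL cR : ℝ) (e : F) (m : Fin k → Fˣ),
      ∑ v : Fin k → F, left k u L cL v * right k s R cR v * ψ (ydig e m v) =
        Bt k u s L R cL cR ψ (ydig e m s) m := by
  intro k
  induction k with
  | zero =>
    intro u s L R hL hR cL cR e m
    rw [Fintype.sum_unique]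
    simp [left, right, Bt, ydig]
  | succ k ih =>
    intro u s L R hL hR cL cR e m
    rw [B1_sum_cons, Finset.sum_comm]
    set G : F → (Fin k → F) → ℝ := fun a v' =>
      right k (Fin.tail s) (Fin.tail R) (sel (s 0) (R 0) cR a) v' *
        ψ (ydig (e + (m 0 : F) * a) (Fin.tail m) v') with hG
    have h1 : ∀ v' : Fin k → F, ∑ a : F, left (k + 1) u L cL (Fin.cons a v') *
        right (k + 1) s R cR (Fin.cons a v') * ψ (ydig e m (Fin.cons a v')) =
        left k (Fin.tail u) (Fin.tail L) cL v' * G (u 0) v' + ∑ δ ∈ L 0, G (u 0 + δ) v' := by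
      intro v'
      rw [← B1_sum_sel (u 0) (L 0) (hL 0) _ (fun a => G a v')]
      apply Finset.sum_congr rfl
      intro a _
      rw [right_cons, B1_ydig_cons, Fin.cons_zero, Fin.tail_cons, mul_assoc]
      rfl
    rw [Finset.sum_congr rfl fun v' _ => h1 v', Finset.sum_add_distrib, Finset.sum_comm]
    have h2 : ∀ δ ∈ L 0, ∑ v' : Fin k → F, G (u 0 + δ) v' =
        sel (s 0) (R 0) cR (u 0 + δ) * ψ (ydig e m s + (m 0 : F) * (u 0 - s 0 + δ)) +
          hs k (Fin.tail R) (Fin.tail m) ψ (ydig e m s + (m 0 : F) * (u 0 - s 0 + δ)) := by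
      intro δ _
      rw [hG]
      simp only
      rw [B1_right_sum ψ hψ0 k (Fin.tail s) (Fin.tail R) (fun j => hR j.succ)]
      have h3 : ydig (e + (m 0 : F) * (u 0 + δ)) (Fin.tail m) (Fin.tail s) =
          ydig e m s + (m 0 : F) * (u 0 - s 0 + δ) := by
        rw [B1_ydig_eq e m s, B1_ydig_add, B1_ydig_add]; ring
      rw [h3]
    rw [Finset.sum_congr rfl h2]
    have h4 : ∑ v' : Fin k → F, left k (Fin.tail u) (Fin.tail L) cL v' * G (u 0) v' =
        Bt k (Fin.tail u) (Fin.tail s) (Fin.tail L) (Fin.tail R) cL (sel (s 0) (R 0) cR (u 0)) ψ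
          (ydig e m s + (m 0 : F) * (u 0 - s 0)) (Fin.tail m) := by
      have h5 : ydig e m s + (m 0 : F) * (u 0 - s 0) =
          ydig (e + (m 0 : F) * u 0) (Fin.tail m) (Fin.tail s) := by
        rw [B1_ydig_eq e m s, B1_ydig_add, B1_ydig_add]; ring
      rw [h5, ← ih (Fin.tail u) (Fin.tail s) (Fin.tail L) (Fin.tail R) (fun j => hL j.succ)
        (fun j => hR j.succ) cL (sel (s 0) (R 0) cR (u 0)) (e + (m 0 : F) * u 0) (Fin.tail m)]
      apply Finset.sum_congr rfl
      intro v' _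
      rw [hG]; simp only; ring
    rw [h4]
    simp only [Bt]
    ring

theorem rowSum_eq_Bt {k : ℕ} (S : Str F k) (hS : S.Good) (ψ : F → ℝ) (hψ0 : ∑ y, ψ y = 0)
    (e : F) (m : Fin k → Fˣ) :
    rowSum S ψ e m = Bt k S.u S.s S.L S.R S.cL S.cR ψ (ydig e m S.s) m :=
  B1_main ψ hψ0 k S.u S.s S.L S.R hS.hL hS.hR S.cL S.cR e m

end Pool.Agent.helper82.Disc
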